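import Pool.Agent.W850.HT.Char

set_option autoImplicit false

open MeasureTheory ProbabilityTheory Set Filter Topology
open scoped NNReal ENNReal

namespace Pool.Agent.N892.ST

open Pool.Agent.W850.HT (unif integral_prod_infinitePi step measurable_step step_re_le cexp_step
  sum_integral_unif intervalIntegrable_indicator integral_indicator_Ioc)

/-- One marked block of a Poisson process: a number of points and a sequence of
(position, jump size). -/
abbrev MBlk := ℕ × (ℕ → ℝ × ℝ)

/-- The law of a marked block with rate `r` and mark law `ρ`. -/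
noncomputable def mblk (r : ℝ≥0) (ρ : Measure ℝ) [IsProbabilityMeasure ρ] : Measure MBlk :=
  (poissonMeasure r).prod (Measure.infinitePi fun _ : ℕ => unif.prod ρ)

instance (r : ℝ≥0) (ρ : Measure ℝ) [IsProbabilityMeasure ρ] :
    IsProbabilityMeasure (mblk r ρ) := by unfold mblk; infer_instance

theorem measurable_mblk {g : ℝ × ℝ → ℂ} (hg : Measurable g) :
    Measurable (fun b : MBlk => ∏ i ∈ Finset.range b.1, g (b.2 i)) := by
  apply measurable_from_prod_countable_right
  intro k
  simp only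
  exact Finset.measurable_prod (Finset.range k) (fun i _ => hg.comp (measurable_pi_apply i))

theorem integral_mblk (r : ℝ≥0) (ρ : Measure ℝ) [IsProbabilityMeasure ρ] {g : ℝ × ℝ → ℂ}
    (hg : Measurable g) (hb : ∀ u, ‖g u‖ ≤ 1) :
    ∫ b, ∏ i ∈ Finset.range b.1, g (b.2 i) ∂(mblk r ρ) =
      Complex.exp (r * ((∫ u, g u ∂(unif.prod ρ)) - 1)) := by
  have hint : Integrable (fun b : MBlk => ∏ i ∈ Finset.range b.1, g (b.2 i)) (mblk r ρ) := by
    refine Integrable.of_bound (measurable_mblk hg).aestronglyMeasurable 1 (ae_of_all _ ?_)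
    intro b
    rw [norm_prod]
    exact Finset.prod_le_one (fun i _ => norm_nonneg _) (fun i _ => hb _)
  rw [mblk] at hint ⊢
  rw [integral_prod _ hint]
  have h1 : ∀ k : ℕ, ∫ U, ∏ i ∈ Finset.range k, g (U i)
      ∂(Measure.infinitePi fun _ : ℕ => unif.prod ρ) = (∫ u, g u ∂(unif.prod ρ)) ^ k := by
    intro k
    rw [integral_prod_infinitePi (fun _ : ℕ => unif.prod ρ) (Finset.range k) (fun _ => g)
      (fun _ => hg)]
    simp
  simp_rw [h1]
  rw [integral_poissonMeasure r]
  calc ∑' n : ℕ, (Real.exp (-r) * r ^ n / (n.factorial)) • (∫ u, g u ∂(unif.prod ρ)) ^ n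
      = ∑' n : ℕ, (Real.exp (-r) : ℂ) *
          ((r * (∫ u, g u ∂(unif.prod ρ))) ^ n / n.factorial) := by
        congr with n
        rw [Complex.real_smul]
        push_cast
        rw [mul_pow]
        ring
    _ = (Real.exp (-r) : ℂ) * ∑' n : ℕ, ((r * (∫ u, g u ∂(unif.prod ρ))) ^ n / n.factorial) :=
        tsum_mul_left
    _ = (Real.exp (-r) : ℂ) * Complex.exp (r * (∫ u, g u ∂(unif.prod ρ))) := by
        rw [(NormedSpace.expSeries_div_hasSum_exp (r * (∫ u, g u ∂(unif.prod ρ)))).tsum_eq,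
          Complex.exp_eq_exp_ℂ]
    _ = _ := by
        rw [Complex.ofReal_exp, ← Complex.exp_add]
        push_cast
        ring_nf

/-- Mean of the Poisson law. -/
theorem lintegral_poisson (r : ℝ≥0) : ∫⁻ n : ℕ, (n : ℝ≥0∞) ∂(poissonMeasure r) = r := by
  rw [lintegral_countable']
  have h1 : ∀ n : ℕ, (n : ℝ≥0∞) * poissonMeasure r {n} =
      ENNReal.ofReal (n * (Real.exp (-r) * r ^ n / n.factorial)) := by
    intro n
    rw [poissonMeasure_singleton, ENNReal.ofReal_mul (Nat.cast_nonneg n), ENNReal.ofReal_natCast]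
  simp_rw [h1]
  have h2 : HasSum (fun n : ℕ => (n : ℝ) * (Real.exp (-r) * r ^ n / n.factorial)) r := by
    rw [← hasSum_nat_add_iff' 1]
    have h3 := (hasSum_one_poissonMeasure r).mul_left (r : ℝ)
    simp only [mul_one] at h3
    simp only [Finset.range_one, Finset.sum_singleton, Nat.cast_zero, zero_mul, sub_zero]
    refine HasSum.congr_fun h3 ?_
    intro n
    rw [Nat.factorial_succ]
    push_cast
    have : (n : ℝ) + 1 ≠ 0 := by positivity
    have h4 : (n.factorial : ℝ) ≠ 0 := by positivity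
    field_simp
    ring
  rw [← ENNReal.ofReal_tsum_of_nonneg (fun n => by positivity) h2.summable, h2.tsum_eq,
    ENNReal.ofReal_coe_nnreal]

theorem measurable_campbell {f : ℝ × ℝ → ℝ≥0∞} (hf : Measurable f) :
    Measurable (fun b : MBlk => ∑ i ∈ Finset.range b.1, f (b.2 i)) := by
  apply measurable_from_prod_countable_right
  intro k
  simp only
  exact Finset.measurable_sum (Finset.range k) (fun i _ => hf.comp (measurable_pi_apply i))

/-- Campbell's formula for one block. -/
theorem lintegral_mblk (r : ℝ≥0) (ρ : Measure ℝ) [IsProbabilityMeasure ρ] {f : ℝ × ℝ → ℝ≥0∞}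
    (hf : Measurable f) :
    ∫⁻ b, ∑ i ∈ Finset.range b.1, f (b.2 i) ∂(mblk r ρ) = r * ∫⁻ u, f u ∂(unif.prod ρ) := by
  rw [mblk, lintegral_prod _ (measurable_campbell hf).aemeasurable]
  have h1 : ∀ k : ℕ, ∫⁻ U, ∑ i ∈ Finset.range k, f (U i)
      ∂(Measure.infinitePi fun _ : ℕ => unif.prod ρ) = k * ∫⁻ u, f u ∂(unif.prod ρ) := by
    intro k
    rw [lintegral_finsetSum (f := fun (i : ℕ) (U : ℕ → ℝ × ℝ) => f (U i)) _
      (fun i _ => hf.comp (measurable_pi_apply i))]
    have h2 : ∀ i : ℕ, ∫⁻ U, f (U i) ∂(Measure.infinitePi fun _ : ℕ => unif.prod ρ) =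
        ∫⁻ u, f u ∂(unif.prod ρ) := by
      intro i
      rw [← lintegral_map hf (measurable_pi_apply i), Measure.infinitePi_map_eval]
    simp_rw [h2]
    simp
  simp_rw [h1]
  rw [lintegral_mul_const _ (by fun_prop), lintegral_poisson]

end Pool.Agent.N892.ST
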