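import Pool.Agent.N892.ST.Proc

set_option autoImplicit false

open MeasureTheory ProbabilityTheory Set Filter Topology
open scoped NNReal ENNReal

namespace Pool.Agent.N892.ST

open Pool.Agent.W850.HT (unif integral_prod_infinitePi step measurable_step step_re_le cexp_step
  sum_integral_unif intervalIntegrable_indicator integral_indicator_Ioc)

variable (r : ℕ → ℝ≥0) (ρ : ℕ → Measure ℝ) [∀ k, IsProbabilityMeasure (ρ k)]

/-- The law. -/
noncomputable def MP : Measure MOm :=
  Measure.infinitePi (fun p : ℕ × ℕ => mblk (r p.1) (ρ p.1))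

instance : IsProbabilityMeasure (MP r ρ) := by unfold MP; infer_instance

theorem integral_MP (S : Finset (ℕ × ℕ)) {g : ℕ × ℕ → ℝ × ℝ → ℂ}
    (hg : ∀ p, Measurable (g p)) (hb : ∀ p u, ‖g p u‖ ≤ 1) :
    ∫ ω : MOm, ∏ p ∈ S, ∏ i ∈ Finset.range (ω p).1, g p ((ω p).2 i) ∂(MP r ρ) =
      ∏ p ∈ S, Complex.exp (r p.1 * ((∫ u, g p u ∂(unif.prod (ρ p.1))) - 1)) := by
  rw [MP, integral_prod_infinitePi (fun p : ℕ × ℕ => mblk (r p.1) (ρ p.1)) S
    (fun p b => ∏ i ∈ Finset.range b.1, g p (b.2 i)) (fun p => measurable_mblk (hg p))]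
  exact Finset.prod_congr rfl (fun p _ => integral_mblk _ _ (hg p) (hb p))

theorem lintegral_hh (β : ℝ) (k b : ℕ) :
    ∫⁻ ω, hh β ω k b ∂(MP r ρ) = r k * ∫⁻ x, ENNReal.ofReal (qq β x) ∂(ρ k) := by
  have hm : Measurable (fun z : ℝ × ℝ => ENNReal.ofReal (qq β z.2)) :=
    ((measurable_qq β).comp measurable_snd).ennreal_ofReal
  have h := lintegral_mblk (r k) (ρ k) hm
  have h1 : ∫⁻ u : ℝ × ℝ, ENNReal.ofReal (qq β u.2) ∂(unif.prod (ρ k)) =
      ∫⁻ x, ENNReal.ofReal (qq β x) ∂(ρ k) := by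
    rw [lintegral_prod _ hm.aemeasurable]
    simp
  rw [h1] at h
  rw [← h]
  have h2 : (MP r ρ).map (fun ω => ω (k, b)) = mblk (r k) (ρ k) := by
    rw [MP]
    exact Measure.infinitePi_map_eval _ (k, b)
  rw [← h2, lintegral_map (measurable_campbell hm) (measurable_pi_apply _)]
  rfl

theorem ae_GG {β : ℝ} (hs : ∑' k, r k * ∫⁻ x, ENNReal.ofReal (qq β x) ∂(ρ k) ≠ ∞) :
    ∀ᵐ ω ∂(MP r ρ), ω ∈ GG β := by
  unfold GG
  simp only [mem_ofPred_eq]
  rw [ae_all_iff]
  intro b
  have h1 : ∫⁻ ω, ∑' k, hh β ω k b ∂(MP r ρ) ≠ ∞ := by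
    rw [lintegral_tsum (fun k => (measurable_hh β k b).aemeasurable)]
    simp_rw [lintegral_hh]
    exact hs
  have h2 : Measurable (fun ω => ∑' k, hh β ω k b) := Measurable.tsum fun k =>
    measurable_hh β k b
  filter_upwards [ae_lt_top h2 h1] with ω hω
  exact hω.ne

/-- The function on blocks used for the increments. -/
noncomputable def mg {n : ℕ} (t : Fin (n + 1) → ℝ) (θ : Fin n → ℝ) (b : ℕ) (z : ℝ × ℝ) : ℂ :=
  if 0 < z.1 then Complex.exp (step t (fun j => θ j * z.2 * Complex.I) (b + z.1)) else 1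

theorem measurable_mg {n : ℕ} (t : Fin (n + 1) → ℝ) (θ : Fin n → ℝ) (b : ℕ) :
    Measurable (mg t θ b) := by
  unfold mg
  apply Measurable.ite (measurableSet_lt measurable_const measurable_fst) _ measurable_const
  apply Complex.measurable_exp.comp
  unfold step
  apply Finset.measurable_sum
  intro j _
  apply Measurable.mul
  · fun_prop
  · exact (measurable_const.indicator measurableSet_Ioc).comp
      (measurable_const.add measurable_fst)

theorem norm_mg {n : ℕ} (t : Fin (n + 1) → ℝ) (θ : Fin n → ℝ) (b : ℕ) (z : ℝ × ℝ) :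
    ‖mg t θ b z‖ ≤ 1 := by
  unfold mg
  split_ifs
  · rw [Complex.norm_exp, Real.exp_le_one_iff]
    exact step_re_le t _ (fun j => by simp) _
  · simp

theorem integral_mg {n : ℕ} {t : Fin (n + 1) → ℝ} (ht : Monotone t) (θ : Fin n → ℝ)
    (b : ℕ) (μ : Measure ℝ) [IsProbabilityMeasure μ] :
    (∫ z, mg t θ b z ∂(unif.prod μ)) - 1 = ∑ j,
      (∫ u, (Ioc (t j.castSucc) (t j.succ)).indicator (fun _ => (1 : ℂ)) (b + u) ∂unif) *
      ∫ x, (Complex.exp (θ j * x * Complex.I) - 1) ∂μ := by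
  have h0 : ∀ᵐ z ∂(unif.prod μ), 0 < z.1 := by
    have h : ∀ᵐ u ∂unif, 0 < u := by
      unfold unif
      filter_upwards [ae_restrict_mem measurableSet_Ioc] with u hu
      exact hu.1
    exact Measure.quasiMeasurePreserving_fst.ae h
  have h1 : (∫ z, mg t θ b z ∂(unif.prod μ)) =
      ∫ z : ℝ × ℝ, (1 + ∑ j, (Ioc (t j.castSucc) (t j.succ)).indicator (fun _ => (1 : ℂ))
        (b + z.1) * (Complex.exp (θ j * z.2 * Complex.I) - 1)) ∂(unif.prod μ) := by
    apply integral_congr_ae
    filter_upwards [h0] with z hz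
    unfold mg
    rw [if_pos hz]
    have := cexp_step ht (fun j => θ j * z.2 * Complex.I) (b + z.1)
    rw [sub_eq_iff_eq_add'] at this
    rw [this]
    congr 1
    exact Finset.sum_congr rfl fun j _ => mul_comm _ _
  rw [h1]
  have h2 : ∀ j : Fin n, Integrable (fun z : ℝ × ℝ =>
      (Ioc (t j.castSucc) (t j.succ)).indicator (fun _ => (1 : ℂ)) ((b : ℝ) + z.1) *
        (Complex.exp (θ j * z.2 * Complex.I) - 1)) (unif.prod μ) := by
    intro j
    refine Integrable.of_bound ?_ 2 (ae_of_all _ ?_)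
    · apply Measurable.aestronglyMeasurable
      apply Measurable.mul
      · exact (measurable_const.indicator measurableSet_Ioc).comp
          (measurable_const.add measurable_fst)
      · fun_prop
    · intro z
      rw [norm_mul]
      have h3 : ‖(Ioc (t j.castSucc) (t j.succ)).indicator (fun _ => (1 : ℂ)) ((b : ℝ) + z.1)‖
          ≤ 1 := by
        simp only [indicator]
        split_ifs <;> simp
      have h4 : ‖Complex.exp (θ j * z.2 * Complex.I) - 1‖ ≤ 2 := by
        refine (norm_sub_le _ _).trans ?_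
        have : (θ j : ℂ) * z.2 * Complex.I = ((θ j * z.2 : ℝ) : ℂ) * Complex.I := by push_cast; ring
        rw [this, Complex.norm_exp_ofReal_mul_I, norm_one]
        norm_num
      calc _ ≤ 1 * (2 : ℝ) := mul_le_mul h3 h4 (norm_nonneg _) zero_le_one
        _ = 2 := one_mul _
  rw [integral_add (integrable_const _) (integrable_finsetSum _ (fun j _ => (h2 j))),
    integral_finsetSum _ (fun j _ => (h2 j))]
  have h5 : ∀ j : Fin n, ∫ z : ℝ × ℝ,
      (Ioc (t j.castSucc) (t j.succ)).indicator (fun _ => (1 : ℂ)) ((b : ℝ) + z.1) *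
        (Complex.exp (θ j * z.2 * Complex.I) - 1) ∂(unif.prod μ) =
      (∫ u, (Ioc (t j.castSucc) (t j.succ)).indicator (fun _ => (1 : ℂ)) (b + u) ∂unif) *
      ∫ x, (Complex.exp (θ j * x * Complex.I) - 1) ∂μ := fun j =>
    integral_prod_mul (fun u : ℝ => (Ioc (t j.castSucc) (t j.succ)).indicator
      (fun _ => (1 : ℂ)) ((b : ℝ) + u)) (fun x : ℝ => Complex.exp (θ j * x * Complex.I) - 1)
  simp_rw [h5]
  simp

/-- The exponent of the levels `< M`. -/
noncomputable def Psi (M : ℕ) (θ : ℝ) : ℂ :=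
  ∑ k ∈ Finset.range M, r k * ∫ x, (Complex.exp (θ * x * Complex.I) - 1) ∂(ρ k)

/-- Joint characteristic function of increments of finitely many levels. -/
theorem char_psum (M : ℕ) {n : ℕ} {t : Fin (n + 1) → ℝ} (ht : Monotone t)
    (ht0 : 0 ≤ t 0) (θ : Fin n → ℝ) :
    ∫ ω, Complex.exp (∑ j : Fin n, (θ j * Complex.I) *
        ((psum M (t j.succ) ω - psum M (t j.castSucc) ω : ℝ) : ℂ)) ∂(MP r ρ) =
      Complex.exp (∑ j : Fin n, ((t j.succ - t j.castSucc : ℝ) : ℂ) * Psi r ρ M (θ j)) := by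
  set B : ℕ := ⌈t (Fin.last n)⌉₊ with hB
  have hBj : ∀ j : Fin (n + 1), ⌈t j⌉₊ ≤ B := fun j => Nat.ceil_mono (ht (Fin.le_last j))
  have key : ∀ ω : MOm, Complex.exp (∑ j : Fin n, (θ j * Complex.I) *
        ((psum M (t j.succ) ω - psum M (t j.castSucc) ω : ℝ) : ℂ)) =
      ∏ p ∈ Finset.range M ×ˢ Finset.range B, ∏ i ∈ Finset.range (ω p).1,
        mg t θ p.2 ((ω p).2 i) := by
    intro ω
    have h1 : (∑ j : Fin n, (θ j * Complex.I) *
        ((psum M (t j.succ) ω - psum M (t j.castSucc) ω : ℝ) : ℂ)) =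
        ∑ k ∈ Finset.range M, ∑ b ∈ Finset.range B, ∑ i ∈ Finset.range (ω (k, b)).1,
          (if 0 < ((ω (k, b)).2 i).1 then step t (fun j => θ j * ((ω (k, b)).2 i).2 * Complex.I)
            (b + ((ω (k, b)).2 i).1) else 0) := by
      have h2 : ∀ j : Fin n, (θ j * Complex.I) *
          ((psum M (t j.succ) ω - psum M (t j.castSucc) ω : ℝ) : ℂ) =
          ∑ k ∈ Finset.range M, ∑ b ∈ Finset.range B, ∑ i ∈ Finset.range (ω (k, b)).1,
            (if 0 < ((ω (k, b)).2 i).1 then (θ j * ((ω (k, b)).2 i).2 * Complex.I) *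
              (Ioc (t j.castSucc) (t j.succ)).indicator (fun _ => (1 : ℂ))
                (b + ((ω (k, b)).2 i).1) else 0) := by
        intro j
        rw [psum_sub M (ht (Fin.castSucc_le_succ j)) (hBj j.succ) ω, Finset.sum_comm,
          Complex.ofReal_sum, Finset.mul_sum]
        refine Finset.sum_congr rfl (fun k _ => ?_)
        rw [Complex.ofReal_sum, Finset.mul_sum]
        refine Finset.sum_congr rfl (fun b _ => ?_)
        rw [Complex.ofReal_sum, Finset.mul_sum]
        refine Finset.sum_congr rfl (fun i _ => ?_)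
        by_cases h0 : 0 < ((ω (k, b)).2 i).1
        · rw [if_pos h0]
          by_cases h3 : (b + ((ω (k, b)).2 i).1) ∈ Ioc (t j.castSucc) (t j.succ)
          · rw [indicator_of_mem h3, if_pos ⟨h0, h3.1, h3.2⟩]
            ring
          · rw [indicator_of_notMem h3, if_neg (fun h => h3 ⟨h.2.1, h.2.2⟩), Complex.ofReal_zero]
            ring
        · rw [if_neg h0, if_neg (fun h => h0 h.1), Complex.ofReal_zero, mul_zero]
      simp_rw [h2]
      rw [Finset.sum_comm]
      refine Finset.sum_congr rfl (fun k _ => ?_)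
      rw [Finset.sum_comm]
      refine Finset.sum_congr rfl (fun b _ => ?_)
      rw [Finset.sum_comm]
      refine Finset.sum_congr rfl (fun i _ => ?_)
      by_cases h0 : 0 < ((ω (k, b)).2 i).1
      · simp only [if_pos h0]; rfl
      · simp only [if_neg h0]; simp
    rw [h1, Complex.exp_sum, Finset.prod_product]
    refine Finset.prod_congr rfl (fun k _ => ?_)
    rw [Complex.exp_sum]
    refine Finset.prod_congr rfl (fun b _ => ?_)
    rw [Complex.exp_sum]
    refine Finset.prod_congr rfl (fun i _ => ?_)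
    unfold mg
    by_cases h0 : 0 < ((ω (k, b)).2 i).1
    · rw [if_pos h0, if_pos h0]
    · rw [if_neg h0, if_neg h0]; simp
  simp_rw [key]
  rw [integral_MP r ρ _ (fun p => measurable_mg t θ p.2) (fun p => norm_mg t θ p.2),
    ← Complex.exp_sum]
  congr 1
  rw [Finset.sum_product]
  unfold Psi
  simp_rw [Finset.mul_sum]
  rw [Finset.sum_comm (s := Finset.univ)]
  refine Finset.sum_congr rfl (fun k _ => ?_)
  simp_rw [integral_mg ht θ, Finset.mul_sum]
  rw [Finset.sum_comm]
  refine Finset.sum_congr rfl (fun j _ => ?_)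
  have h5 := sum_integral_unif (f := (Ioc (t j.castSucc) (t j.succ)).indicator (fun _ => (1 : ℂ))) B
    (fun a b => intervalIntegrable_indicator _ _ a b)
  rw [integral_indicator_Ioc (ht0.trans (ht (Fin.zero_le _)))
    (ht (Fin.castSucc_le_succ j)) ((ht (Fin.le_last j.succ)).trans (Nat.le_ceil _))] at h5
  rw [← h5, Finset.sum_mul]
  refine Finset.sum_congr rfl (fun b _ => ?_)
  ring

section Limit

variable {r ρ}
variable {β : ℝ} (h0 : 0 < β) (h1 : β ≤ 1)
  (hs : ∑' k, r k * ∫⁻ x, ENNReal.ofReal (qq β x) ∂(ρ k) ≠ ∞)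
  {Φ : ℝ → ℂ} (hΦ : ∀ θ, Tendsto (fun M => Psi r ρ M θ) atTop (𝓝 (Φ θ)))
include h0 h1 hs hΦ

theorem char_joint {n : ℕ} {t : Fin (n + 1) → ℝ} (ht : Monotone t) (ht0 : 0 ≤ t 0)
    (θ : Fin n → ℝ) :
    ∫ ω, Complex.exp (∑ j : Fin n, (θ j * Complex.I) *
        ((XX β (t j.succ) ω - XX β (t j.castSucc) ω : ℝ) : ℂ)) ∂(MP r ρ) =
      Complex.exp (∑ j : Fin n, ((t j.succ - t j.castSucc : ℝ) : ℂ) * Φ (θ j)) := by
  have h := fun M => char_psum r ρ M ht ht0 θ
  refine tendsto_nhds_unique (f := fun M => Complex.exp (∑ j : Fin n,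
    ((t j.succ - t j.castSucc : ℝ) : ℂ) * Psi r ρ M (θ j))) (l := atTop) ?_ ?_
  · simp_rw [← h]
    apply tendsto_integral_of_dominated_convergence (fun _ => (1 : ℝ))
    · intro M
      apply Measurable.aestronglyMeasurable
      apply Complex.measurable_exp.comp
      apply Finset.measurable_sum
      intro j _
      apply Measurable.const_mul
      exact Complex.measurable_ofReal.comp ((measurable_psum M _).sub (measurable_psum M _))
    · exact integrable_const _
    · intro M
      refine ae_of_all _ (fun ω => ?_)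
      rw [Complex.norm_exp, Real.exp_le_one_iff, Complex.re_sum]
      apply Finset.sum_nonpos
      intro j _
      simp
    · filter_upwards [ae_GG r ρ hs] with ω hω
      apply (Complex.continuous_exp.tendsto _).comp
      apply tendsto_finsetSum
      intro j _
      apply Tendsto.const_mul
      exact (Complex.continuous_ofReal.tendsto _).comp
        ((tendsto_psum h0 h1 hω _).sub (tendsto_psum h0 h1 hω _))
  · apply (Complex.continuous_exp.tendsto _).comp
    exact tendsto_finsetSum _ fun j _ => (hΦ (θ j)).const_mul _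

theorem char_single {a b : ℝ} (ha : 0 ≤ a) (hab : a ≤ b) (θ : ℝ) :
    ∫ ω, Complex.exp ((θ * Complex.I) * ((XX β b ω - XX β a ω : ℝ) : ℂ)) ∂(MP r ρ) =
      Complex.exp (((b - a : ℝ) : ℂ) * Φ θ) := by
  have h := char_joint h0 h1 hs hΦ (n := 1) (t := ![a, b]) (by
    intro i j hij
    fin_cases i <;> fin_cases j <;> simp at hij ⊢
    exact hab) (by simpa using ha) (fun _ => θ)
  simpa using h

theorem charFun_incr {a b : ℝ} (ha : 0 ≤ a) (hab : a ≤ b) (θ : ℝ) :
    charFun ((MP r ρ).map (fun ω => XX β b ω - XX β a ω)) θ =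
      Complex.exp (((b - a : ℝ) : ℂ) * Φ θ) := by
  have hm : Measurable (fun ω => XX β b ω - XX β a ω) :=
    (measurable_XX h0 h1 b).sub (measurable_XX h0 h1 a)
  rw [← char_single h0 h1 hs hΦ ha hab θ, charFun_apply,
    integral_map hm.aemeasurable (by fun_prop)]
  congr with ω
  simp only [RCLike.inner_apply, conj_trivial]
  congr 1
  push_cast
  ring

theorem XX_indep (n : ℕ) (t : Fin (n + 1) → ℝ) (ht0 : 0 ≤ t 0) (ht : Monotone t) :
    iIndepFun (fun (i : Fin n) (ω : MOm) => XX β (t i.succ) ω - XX β (t i.castSucc) ω)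
      (MP r ρ) := by
  have hm : ∀ i : Fin n, AEMeasurable (fun ω => XX β (t i.succ) ω - XX β (t i.castSucc) ω)
      (MP r ρ) := fun i => ((measurable_XX h0 h1 _).sub (measurable_XX h0 h1 _)).aemeasurable
  rw [iIndepFun_iff_charFun_pi hm]
  intro θ
  have h3 := char_joint h0 h1 hs hΦ ht ht0 (fun j => θ j)
  have h4 : ∀ j : Fin n, charFun ((MP r ρ).map
      (fun ω => XX β (t j.succ) ω - XX β (t j.castSucc) ω)) (θ j) =
      Complex.exp (((t j.succ - t j.castSucc : ℝ) : ℂ) * Φ (θ j)) := fun j =>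
    charFun_incr h0 h1 hs hΦ (ht0.trans (ht (Fin.zero_le _))) (ht (Fin.castSucc_le_succ j)) (θ j)
  simp_rw [h4]
  rw [← Complex.exp_sum, ← h3, charFun_apply, integral_map]
  · congr with ω
    congr 1
    rw [PiLp.inner_apply]
    push_cast
    rw [Finset.sum_mul]
    refine Finset.sum_congr rfl (fun j _ => ?_)
    simp
    ring
  · apply Measurable.aemeasurable
    apply (WithLp.measurable_toLp 2 _).comp
    exact measurable_pi_lambda _ (fun j => (measurable_XX h0 h1 _).sub (measurable_XX h0 h1 _))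
  · fun_prop

end Limit

end Pool.Agent.N892.ST
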