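import Mathlib

set_option autoImplicit false

open MeasureTheory ProbabilityTheory Set Filter Topology
open scoped NNReal ENNReal

namespace Pool.Agent.N892.ST

/-- Fourier decay bounds the mass of balls. -/
theorem ball_le (ν : Measure ℝ) [IsProbabilityMeasure ν] {C γ : ℝ} (hC : 0 ≤ C) (hγ : 0 ≤ γ)
    (hν : ∀ v : ℝ, 1 ≤ |v| → ‖charFun ν v‖ ≤ C * |v| ^ (-γ)) {x ε R : ℝ} (hε : 0 < ε)
    (hR : 1 ≤ R) :
    ν.real (Metric.closedBall x ε) ≤ 2 * (R * ε + C * R ^ (-γ)) := by
  set vv : ℝ≥0 := ⟨(ε ^ 2)⁻¹, by positivity⟩ with hvv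
  set g : Measure ℝ := gaussianReal 0 vv with hg
  have hvv0 : vv ≠ 0 := by
    intro h
    have : (ε ^ 2)⁻¹ = 0 := congrArg NNReal.toReal h
    have h2 : 0 < (ε ^ 2)⁻¹ := by positivity
    linarith
  -- the Gaussian bump
  have h1 : ∀ y : ℝ, ∫ v, Complex.exp (((v * (y - x) : ℝ) : ℂ) * Complex.I) ∂g =
      ((Real.exp (-(y - x) ^ 2 / (2 * ε ^ 2)) : ℝ) : ℂ) := by
    intro y
    have h := charFun_gaussianReal (μ := 0) (v := vv) (y - x)
    rw [charFun_apply] at h
    have h2 : ∀ v : ℝ, Complex.exp (((v * (y - x) : ℝ) : ℂ) * Complex.I) =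
        Complex.exp ((inner ℝ v (y - x) : ℝ) * Complex.I) := by
      intro v
      simp only [RCLike.inner_apply, conj_trivial]
      rw [mul_comm v]
    simp_rw [h2]
    rw [hg]
    refine h.trans ?_
    rw [Complex.ofReal_exp]
    congr 1
    have h3' : (vv : ℝ) = (ε ^ 2)⁻¹ := rfl
    have h3 : ((vv : ℝ) : ℂ) = ((ε : ℂ) ^ 2)⁻¹ := by
      rw [h3']
      push_cast
      ring
    rw [h3]
    push_cast
    have : (ε : ℂ) ≠ 0 := by exact_mod_cast hε.ne'
    field_simp
    ring
  have h2 : ((∫ y, Real.exp (-(y - x) ^ 2 / (2 * ε ^ 2)) ∂ν : ℝ) : ℂ) =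
      ∫ v, Complex.exp (-(v * x : ℝ) * Complex.I) * charFun ν v ∂g := by
    rw [← integral_complex_ofReal]
    simp_rw [← h1]
    rw [integral_integral_swap]
    · congr with v
      rw [charFun_apply, ← integral_const_mul]
      congr with y
      rw [← Complex.exp_add]
      congr 1
      simp only [RCLike.inner_apply, conj_trivial]
      push_cast
      ring
    · refine Integrable.of_bound (by fun_prop) 1 (ae_of_all _ fun p => ?_)
      simp only [Function.uncurry]
      rw [Complex.norm_exp_ofReal_mul_I]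
  have h3 : ∀ v : ℝ, ‖Complex.exp (-(v * x : ℝ) * Complex.I) * charFun ν v‖ ≤
      (Icc (-R) R).indicator (fun _ => (1 : ℝ)) v + C * R ^ (-γ) := by
    intro v
    rw [norm_mul, ← Complex.ofReal_neg, Complex.norm_exp_ofReal_mul_I, one_mul]
    have h4 : 0 ≤ C * R ^ (-γ) := mul_nonneg hC (Real.rpow_nonneg (by linarith) _)
    by_cases hv : v ∈ Icc (-R) R
    · rw [indicator_of_mem hv]
      have := norm_charFun_le_one (μ := ν) v
      linarith
    · rw [indicator_of_notMem hv, zero_add]
      have hv' : R < |v| := by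
        by_contra hc
        exact hv (abs_le.1 (not_lt.1 hc))
      refine (hν v (hR.trans hv'.le)).trans ?_
      apply mul_le_mul_of_nonneg_left _ hC
      exact Real.rpow_le_rpow_of_nonpos (by linarith) hv'.le (by linarith)
  have h4 : g.real (Icc (-R) R) ≤ R * ε := by
    rw [measureReal_def]
    apply ENNReal.toReal_le_of_le_ofReal (by positivity)
    rw [hg, gaussianReal_apply _ hvv0]
    have h5 : ∀ y : ℝ, gaussianPDF 0 vv y ≤ ENNReal.ofReal (ε / 2) := by
      intro y
      unfold gaussianPDF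
      apply ENNReal.ofReal_le_ofReal
      unfold gaussianPDFReal
      have h6 : (√(2 * Real.pi * vv))⁻¹ ≤ ε / 2 := by
        have h7 : 2 / ε ≤ √(2 * Real.pi * vv) := by
          apply Real.le_sqrt_of_sq_le
          have h8 : ((vv : ℝ≥0) : ℝ) = (ε ^ 2)⁻¹ := rfl
          rw [h8, div_pow, div_eq_mul_inv]
          apply mul_le_mul_of_nonneg_right _ (by positivity)
          nlinarith [Real.pi_gt_three]
        calc (√(2 * Real.pi * vv))⁻¹ ≤ (2 / ε)⁻¹ := inv_anti₀ (by positivity) h7
          _ = ε / 2 := by rw [inv_div]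
      calc (√(2 * Real.pi * vv))⁻¹ * Real.exp (-(y - 0) ^ 2 / (2 * vv)) ≤ (ε / 2) * 1 := by
            apply mul_le_mul h6 _ (Real.exp_nonneg _) (by positivity)
            rw [Real.exp_le_one_iff]
            apply div_nonpos_of_nonpos_of_nonneg
            · linarith [sq_nonneg (y - 0)]
            · positivity
        _ = ε / 2 := mul_one _
    calc ∫⁻ y in Icc (-R) R, gaussianPDF 0 vv y ≤ ∫⁻ _ in Icc (-R) R, ENNReal.ofReal (ε / 2) :=
          lintegral_mono h5
      _ = ENNReal.ofReal (ε / 2) * ENNReal.ofReal (R - (-R)) := by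
          rw [setLIntegral_const, Real.volume_Icc]
      _ = ENNReal.ofReal (R * ε) := by
          rw [← ENNReal.ofReal_mul (by positivity)]
          congr 1
          ring
  have h5 : ∫ y, Real.exp (-(y - x) ^ 2 / (2 * ε ^ 2)) ∂ν ≤ R * ε + C * R ^ (-γ) := by
    calc ∫ y, Real.exp (-(y - x) ^ 2 / (2 * ε ^ 2)) ∂ν ≤
          ‖((∫ y, Real.exp (-(y - x) ^ 2 / (2 * ε ^ 2)) ∂ν : ℝ) : ℂ)‖ := by
          rw [Complex.norm_real]
          exact le_abs_self _
      _ = ‖∫ v, Complex.exp (-(v * x : ℝ) * Complex.I) * charFun ν v ∂g‖ := by rw [h2]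
      _ ≤ ∫ v, ((Icc (-R) R).indicator (fun _ => (1 : ℝ)) v + C * R ^ (-γ)) ∂g := by
          apply norm_integral_le_of_norm_le
          · apply Integrable.add _ (integrable_const _)
            exact (integrable_const _).indicator measurableSet_Icc
          · exact ae_of_all _ h3
      _ = g.real (Icc (-R) R) + C * R ^ (-γ) := by
          rw [integral_add ((integrable_const _).indicator measurableSet_Icc)
            (integrable_const _), integral_indicator measurableSet_Icc]
          simp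
      _ ≤ _ := by linarith
  have h6 : ν.real (Metric.closedBall x ε) ≤
      2 * ∫ y, Real.exp (-(y - x) ^ 2 / (2 * ε ^ 2)) ∂ν := by
    rw [← integral_indicator_one Metric.isClosed_closedBall.measurableSet, ← integral_const_mul]
    apply integral_mono
    · exact (integrable_const _).indicator Metric.isClosed_closedBall.measurableSet
    · apply Integrable.const_mul
      refine Integrable.of_bound (by fun_prop) 1 (ae_of_all _ fun y => ?_)
      rw [Real.norm_of_nonneg (Real.exp_nonneg _), Real.exp_le_one_iff]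
      apply div_nonpos_of_nonpos_of_nonneg
      · linarith [sq_nonneg (y - x)]
      · positivity
    · intro y
      simp only
      by_cases hy : y ∈ Metric.closedBall x ε
      · rw [indicator_of_mem hy]
        rw [Metric.mem_closedBall, Real.dist_eq] at hy
        have h7 : (y - x) ^ 2 ≤ ε ^ 2 := by
          rw [← sq_abs]
          exact pow_le_pow_left₀ (abs_nonneg _) hy 2
        have h8 : (-(1 / 2) : ℝ) ≤ -(y - x) ^ 2 / (2 * ε ^ 2) := by
          rw [le_div_iff₀ (by positivity)]
          linarith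
        have h9 : (1 / 2 : ℝ) ≤ Real.exp (-(1 / 2)) := by
          have := Real.add_one_le_exp (-(1 / 2) : ℝ)
          linarith
        have h10 := Real.exp_le_exp.2 h8
        simp only [Pi.one_apply]
        linarith
      · rw [indicator_of_notMem hy]
        positivity
  linarith

theorem cover_aux {ι : Type*} (J T : ι → ℝ) {ε : ℝ} (hε : 0 < ε) (hJ : Summable fun p => |J p|)
    {s t : ℝ} (hst : s ≤ t)
    (h : ⌊∑' p, if T p ≤ s then min 1 (|J p| / ε) else 0⌋₊ =
      ⌊∑' p, if T p ≤ t then min 1 (|J p| / ε) else 0⌋₊) :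
    |(∑' p, if T p ≤ t then J p else 0) - ∑' p, if T p ≤ s then J p else 0| ≤ ε := by
  have hw0 : ∀ p, 0 ≤ min 1 (|J p| / ε) := fun p => le_min zero_le_one (by positivity)
  have hw : Summable fun p => min 1 (|J p| / ε) :=
    Summable.of_nonneg_of_le hw0 (fun p => min_le_right _ _) (hJ.div_const ε)
  have hwt : ∀ t, Summable fun p => if T p ≤ t then min 1 (|J p| / ε) else 0 := fun t =>
    Summable.of_nonneg_of_le (fun p => by split_ifs; exacts [hw0 p, le_rfl])
      (fun p => by split_ifs; exacts [le_rfl, hw0 p]) hw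
  have hJt : ∀ t, Summable fun p => if T p ≤ t then J p else 0 := fun t =>
    Summable.of_norm_bounded hJ fun p => by split_ifs; exacts [le_rfl, by simp]
  have hd : ∀ (f : ι → ℝ) p, (if T p ≤ t then f p else 0) - (if T p ≤ s then f p else 0) =
      if s < T p ∧ T p ≤ t then f p else 0 := by
    intro f p
    by_cases h1 : T p ≤ s
    · rw [if_pos (h1.trans hst), if_pos h1, if_neg (fun hc => absurd hc.1 (not_lt.2 h1)), sub_self]
    · by_cases h2 : T p ≤ t
      · rw [if_pos h2, if_neg h1, if_pos ⟨not_le.1 h1, h2⟩, sub_zero]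
      · rw [if_neg h2, if_neg h1, if_neg (fun hc => h2 hc.2), sub_zero]
  have hV : (∑' p, if T p ≤ t then min 1 (|J p| / ε) else 0) -
      (∑' p, if T p ≤ s then min 1 (|J p| / ε) else 0) =
      ∑' p, if s < T p ∧ T p ≤ t then min 1 (|J p| / ε) else 0 := by
    rw [← (hwt t).tsum_sub (hwt s)]
    exact tsum_congr fun p => hd (fun p => min 1 (|J p| / ε)) p
  have hVs : Summable fun p => if s < T p ∧ T p ≤ t then min 1 (|J p| / ε) else 0 :=
    ((hwt t).sub (hwt s)).congr fun p => hd (fun p => min 1 (|J p| / ε)) p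
  have hlt : ∑' p, (if s < T p ∧ T p ≤ t then min 1 (|J p| / ε) else 0) < 1 := by
    rw [← hV]
    have h1 := Nat.lt_floor_add_one (∑' p, if T p ≤ t then min 1 (|J p| / ε) else 0)
    have h2 : ((⌊∑' p, if T p ≤ s then min 1 (|J p| / ε) else 0⌋₊ : ℕ) : ℝ) ≤
        ∑' p, if T p ≤ s then min 1 (|J p| / ε) else 0 :=
      Nat.floor_le (tsum_nonneg fun p => by split_ifs; exacts [hw0 p, le_rfl])
    rw [← h] at h1
    linarith
  have hp : ∀ p, s < T p ∧ T p ≤ t → |J p| = ε * min 1 (|J p| / ε) := by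
    intro p hp
    have h1 : min 1 (|J p| / ε) < 1 := by
      refine lt_of_le_of_lt ?_ hlt
      have := hVs.le_tsum p (fun q _ => by split_ifs; exacts [hw0 q, le_rfl])
      rwa [if_pos hp] at this
    have h2 : |J p| / ε ≤ 1 := by
      by_contra hc
      rw [min_eq_left (not_le.1 hc).le] at h1
      exact lt_irrefl _ h1
    rw [min_eq_right h2]
    field_simp
  rw [← (hJt t).tsum_sub (hJt s)]
  have h1 : ∀ p, (if T p ≤ t then J p else 0) - (if T p ≤ s then J p else 0) =
      if s < T p ∧ T p ≤ t then J p else 0 := hd J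
  simp_rw [h1]
  rw [← Real.norm_eq_abs]
  have h2 : ‖∑' p, if s < T p ∧ T p ≤ t then J p else 0‖ ≤
      ∑' p, ε * (if s < T p ∧ T p ≤ t then min 1 (|J p| / ε) else 0) := by
    refine tsum_of_norm_bounded (hVs.mul_left ε).hasSum fun p => ?_
    by_cases hc : s < T p ∧ T p ≤ t
    · rw [if_pos hc, if_pos hc, Real.norm_eq_abs]
      exact (hp p hc).le
    · rw [if_neg hc, if_neg hc]
      simp
  refine h2.trans ?_
  rw [tsum_mul_left]
  calc ε * _ ≤ ε * 1 := mul_le_mul_of_nonneg_left hlt.le hε.le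
    _ = ε := mul_one _

/-- The range of a pure jump path is covered by few intervals. -/
theorem cover {ι : Type*} (J T : ι → ℝ) {ε : ℝ} (hε : 0 < ε) (hJ : Summable fun p => |J p|) :
    ∃ c : ℕ → ℝ, ∀ t, ∃ n ≤ ⌊∑' p, min 1 (|J p| / ε)⌋₊,
      |(∑' p, if T p ≤ t then J p else 0) - c n| ≤ ε := by
  have hw0 : ∀ p, 0 ≤ min 1 (|J p| / ε) := fun p => le_min zero_le_one (by positivity)
  have hw : Summable fun p => min 1 (|J p| / ε) :=
    Summable.of_nonneg_of_le hw0 (fun p => min_le_right _ _) (hJ.div_const ε)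
  have hwt : ∀ t, Summable fun p => if T p ≤ t then min 1 (|J p| / ε) else 0 := fun t =>
    Summable.of_nonneg_of_le (fun p => by split_ifs; exacts [hw0 p, le_rfl])
      (fun p => by split_ifs; exacts [le_rfl, hw0 p]) hw
  classical
  refine ⟨fun n => if h : ∃ t, ⌊∑' p, if T p ≤ t then min 1 (|J p| / ε) else 0⌋₊ = n then
    ∑' p, if T p ≤ h.choose then J p else 0 else 0, fun t => ?_⟩
  refine ⟨⌊∑' p, if T p ≤ t then min 1 (|J p| / ε) else 0⌋₊, ?_, ?_⟩
  · apply Nat.floor_mono
    exact (hwt t).tsum_le_tsum (fun p => by split_ifs; exacts [le_rfl, hw0 p]) hw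
  · have hex : ∃ t', ⌊∑' p, if T p ≤ t' then min 1 (|J p| / ε) else 0⌋₊ =
        ⌊∑' p, if T p ≤ t then min 1 (|J p| / ε) else 0⌋₊ := ⟨t, rfl⟩
    simp only
    rw [dif_pos hex]
    have h1 := hex.choose_spec
    rcases le_total hex.choose t with h2 | h2
    · exact cover_aux J T hε hJ h2 h1
    · rw [abs_sub_comm]
      exact cover_aux J T hε hJ h2 h1.symm

end Pool.Agent.N892.ST
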