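import Pool.Agent.N892.ST.Stable
import Pool.Agent.N892.ST.Cover

set_option autoImplicit false

open MeasureTheory ProbabilityTheory Set Filter Topology
open scoped NNReal ENNReal

namespace Pool.Agent.N892.ST

/-- jump -/
noncomputable def JJ (ω : MOm) (p : ℕ × ℕ) : ℝ :=
  if p.2 < (ω (p.1, 0)).1 ∧ 0 < ((ω (p.1, 0)).2 p.2).1 then ((ω (p.1, 0)).2 p.2).2 else 0

/-- time of the jump -/
noncomputable def TT (ω : MOm) (p : ℕ × ℕ) : ℝ := ((ω (p.1, 0)).2 p.2).1

theorem summable_qJ {β : ℝ} (h0 : 0 < β) {ω : MOm} (hω : ω ∈ GG β) :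
    Summable fun p => qq β (JJ ω p) := by
  have h1 : ∑' p : ℕ × ℕ, ENNReal.ofReal (qq β (JJ ω p)) ≠ ∞ := by
    have h2 : ∑' p : ℕ × ℕ, ENNReal.ofReal (qq β (JJ ω p)) =
        ∑' k, ∑' i, ENNReal.ofReal (qq β (JJ ω (k, i))) :=
      ENNReal.tsum_prod (f := fun k i => ENNReal.ofReal (qq β (JJ ω (k, i))))
    rw [h2]
    refine ne_top_of_le_ne_top (hω 0) (ENNReal.tsum_le_tsum fun k => ?_)
    unfold hh
    rw [tsum_eq_sum (s := Finset.range (ω (k, 0)).1)]
    · refine Finset.sum_le_sum fun i _ => ?_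
      apply ENNReal.ofReal_le_ofReal
      unfold JJ
      split_ifs
      · exact le_rfl
      · have : qq β 0 = 0 := by
          unfold qq
          rw [abs_zero, Real.zero_rpow h0.ne']
          simp
        rw [this]
        exact qq_nonneg _ _
    · intro i hi
      rw [Finset.mem_range] at hi
      unfold JJ
      rw [if_neg (fun h => hi h.1)]
      unfold qq
      rw [abs_zero, Real.zero_rpow h0.ne']
      simp
  have h2 := ENNReal.summable_toReal h1
  refine h2.congr fun p => ?_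
  rw [ENNReal.toReal_ofReal (qq_nonneg _ _)]

theorem summable_J {β : ℝ} (h0 : 0 < β) (h1 : β ≤ 1) {ω : MOm} (hω : ω ∈ GG β) :
    Summable fun p => |JJ ω p| := by
  have h2 := summable_qJ h0 hω
  refine Summable.of_norm_bounded_eventually h2 ?_
  have h3 := h2.tendsto_cofinite_zero.eventually_lt_const one_pos
  filter_upwards [h3] with p hp
  rw [Real.norm_eq_abs, abs_abs]
  exact abs_le_qq h0 h1 hp

theorem XX_eq_tsum {β : ℝ} (h0 : 0 < β) (h1 : β ≤ 1) {ω : MOm} (hω : ω ∈ GG β) {t : ℝ}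
    (ht : t ≤ 1) : XX β t ω = ∑' p, if TT ω p ≤ t then JJ ω p else 0 := by
  have hB : ⌈t⌉₊ ≤ 1 := by
    rw [Nat.ceil_le]
    simpa using ht
  rw [XX_eq hB hω]
  have hs : Summable fun p : ℕ × ℕ => if TT ω p ≤ t then JJ ω p else 0 :=
    Summable.of_norm_bounded (summable_J h0 h1 hω) fun p => by
      split_ifs; exacts [le_rfl, by simp]
  rw [hs.tsum_prod]
  simp only [Finset.range_one, Finset.sum_singleton]
  refine tsum_congr fun k => ?_
  rw [tsum_eq_sum (s := Finset.range (ω (k, 0)).1)]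
  · unfold yy
    refine Finset.sum_congr rfl fun i hi => ?_
    rw [Finset.mem_range] at hi
    unfold JJ TT
    simp only [Nat.cast_zero, zero_add]
    by_cases h2 : 0 < ((ω (k, 0)).2 i).1
    · by_cases h3 : ((ω (k, 0)).2 i).1 ≤ t
      · rw [if_pos ⟨h2, h3⟩, if_pos h3, if_pos ⟨hi, h2⟩]
      · rw [if_neg (fun h => h3 h.2), if_neg h3]
    · rw [if_neg (c := 0 < _ ∧ _) (fun h => h2 h.1), if_neg (c := i < _ ∧ _) (fun h => h2 h.2)]
      simp
  · intro i hi
    rw [Finset.mem_range] at hi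
    unfold JJ
    rw [if_neg (c := i < _ ∧ _) (fun h => hi h.1)]
    simp

theorem min_le_qq {z x : ℝ} (hz : 0 < z) (hz1 : z < 1) :
    min 1 (|x| / z ^ 16) ≤ qq (1 / 8) x / z ^ 2 := by
  have hzz : (z ^ 16) ^ (1 / 8 : ℝ) = z ^ 2 := by
    rw [← Real.rpow_natCast z 16, ← Real.rpow_mul hz.le, ← Real.rpow_natCast z 2]
    norm_num
  have h16 : 0 < z ^ 16 := by positivity
  have h16' : z ^ 16 ≤ 1 := pow_le_one₀ hz.le hz1.le
  have h2' : z ^ 2 ≤ 1 := pow_le_one₀ hz.le hz1.le
  have h2 : 0 < z ^ 2 := by positivity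
  rw [le_div_iff₀ h2]
  unfold qq
  rcases le_or_gt |x| (z ^ 16) with h | h
  · have h3 : |x| / z ^ 16 ≤ 1 := (div_le_one h16).2 h
    rw [min_eq_right h3]
    have h4 : |x| / z ^ 16 ≤ (|x| / z ^ 16) ^ (1 / 8 : ℝ) := by
      rcases eq_or_lt_of_le (abs_nonneg x) with hx | hx
      · rw [← hx, zero_div, Real.zero_rpow (by norm_num)]
      · calc |x| / z ^ 16 = (|x| / z ^ 16) ^ (1 : ℝ) := (Real.rpow_one _).symm
          _ ≤ _ := Real.rpow_le_rpow_of_exponent_ge (by positivity) h3 (by norm_num)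
    rw [Real.div_rpow (abs_nonneg _) h16.le, hzz] at h4
    have h5 : |x| ^ (1 / 8 : ℝ) ≤ 1 := Real.rpow_le_one (abs_nonneg _) (h.trans h16') (by norm_num)
    rw [min_eq_right h5]
    calc |x| / z ^ 16 * z ^ 2 ≤ |x| ^ (1 / 8 : ℝ) / z ^ 2 * z ^ 2 :=
          mul_le_mul_of_nonneg_right h4 h2.le
      _ = |x| ^ (1 / 8 : ℝ) := by field_simp
  · have h3 : 1 ≤ |x| / z ^ 16 := (one_le_div h16).2 h.le
    rw [min_eq_left h3, one_mul]
    apply le_min h2'
    rw [← hzz]
    exact Real.rpow_le_rpow h16.le h.le (by norm_num)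

/-- On the good set, there is no measure with Fourier decay `3/8` on the graph. -/
theorem no_measure {ω : MOm} (hω : ω ∈ GG (1 / 8)) (μ : Measure (ℝ × ℝ)) [IsProbabilityMeasure μ]
    (K : Set (ℝ × ℝ)) (hK : K ⊆ {p : ℝ × ℝ | p.1 ∈ Set.Icc (0 : ℝ) 1 ∧ p.2 = XX (1 / 8) p.1 ω})
    (hμ : μ Kᶜ = 0) (C : ℝ)
    (hC : ∀ v : ℝ, 1 ≤ |v| → ‖charFun (μ.map Prod.snd) v‖ ≤ C * |v| ^ (-(3 / 8) : ℝ)) : False := by
  have h0 : (0 : ℝ) < 1 / 8 := by norm_num
  have h1 : (1 / 8 : ℝ) ≤ 1 := by norm_num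
  set ν : Measure ℝ := μ.map Prod.snd with hνdef
  have : IsProbabilityMeasure ν := Measure.isProbabilityMeasure_map measurable_snd.aemeasurable
  have hC0 : 0 ≤ C := by
    have := (norm_nonneg _).trans (hC 1 (by simp))
    simpa using this
  set H : ℝ := ∑' p, qq (1 / 8) (JJ ω p) with hH
  have hH0 : 0 ≤ H := tsum_nonneg fun p => qq_nonneg _ _
  have key : ∀ z : ℝ, 0 < z → z < 1 → 1 ≤ 2 * (H + 1) * (1 + C) * z := by
    intro z hz hz1
    have hε : 0 < z ^ 16 := by positivity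
    obtain ⟨c, hc⟩ := cover (JJ ω) (TT ω) hε (summable_J h0 h1 hω)
    set N : ℕ := ⌊∑' p, min 1 (|JJ ω p| / z ^ 16)⌋₊ with hN
    have hNle : (N : ℝ) ≤ H / z ^ 2 := by
      refine (Nat.floor_le (tsum_nonneg fun p => le_min zero_le_one (by positivity))).trans ?_
      rw [hH, ← tsum_div_const]
      refine Summable.tsum_le_tsum (fun p => min_le_qq hz hz1) ?_
        ((summable_qJ h0 hω).div_const _)
      exact Summable.of_nonneg_of_le (fun p => le_min zero_le_one (by positivity))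
        (fun p => min_le_right _ _) ((summable_J h0 h1 hω).div_const _)
    have hball : ∀ x : ℝ, ν.real (Metric.closedBall x (z ^ 16)) ≤ 2 * (1 + C) * z ^ 3 := by
      intro x
      have hR : 1 ≤ (z ^ 8)⁻¹ := (one_le_inv₀ (by positivity)).2 (pow_le_one₀ hz.le hz1.le)
      have h2 := ball_le ν hC0 (by norm_num : (0 : ℝ) ≤ 3 / 8) hC (x := x) hε hR
      have h3 : ((z ^ 8)⁻¹) ^ (-(3 / 8) : ℝ) = z ^ 3 := by
        rw [Real.inv_rpow (by positivity), ← Real.rpow_neg (by positivity), neg_neg,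
          ← Real.rpow_natCast z 8, ← Real.rpow_mul hz.le, ← Real.rpow_natCast z 3]
        norm_num
      have h4 : (z ^ 8)⁻¹ * z ^ 16 = z ^ 8 := by field_simp
      rw [h3, h4] at h2
      have h5 : z ^ 8 ≤ z ^ 3 := pow_le_pow_of_le_one hz.le hz1.le (by norm_num)
      refine h2.trans ?_
      nlinarith
    have hsub : K ⊆ ⋃ n ∈ Finset.range (N + 1), Prod.snd ⁻¹' (Metric.closedBall (c n) (z ^ 16)) := by
      intro p hp
      obtain ⟨hp1, hp2⟩ := hK hp
      obtain ⟨n, hn, hn2⟩ := hc p.1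
      rw [mem_iUnion₂]
      refine ⟨n, Finset.mem_range.2 (Nat.lt_succ_of_le hn), ?_⟩
      rw [mem_preimage, Metric.mem_closedBall, Real.dist_eq, hp2,
        XX_eq_tsum h0 h1 hω hp1.2]
      exact hn2
    have hμ1 : 1 ≤ μ.real K := by
      have h2 : μ.real univ ≤ μ.real K + μ.real Kᶜ := by
        rw [← union_compl_self K]
        exact measureReal_union_le _ _
      have h3 : μ.real Kᶜ = 0 := by rw [measureReal_def, hμ]; rfl
      rw [h3] at h2
      simpa using h2
    have h2 : μ.real K ≤ ∑ n ∈ Finset.range (N + 1),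
        μ.real (Prod.snd ⁻¹' (Metric.closedBall (c n) (z ^ 16))) :=
      (measureReal_mono hsub (measure_ne_top _ _)).trans (measureReal_biUnion_finset_le _ _)
    have h3 : ∀ n, μ.real (Prod.snd ⁻¹' (Metric.closedBall (c n) (z ^ 16))) =
        ν.real (Metric.closedBall (c n) (z ^ 16)) := by
      intro n
      rw [hνdef, map_measureReal_apply measurable_snd Metric.isClosed_closedBall.measurableSet]
    simp_rw [h3] at h2
    have h4 : ∑ n ∈ Finset.range (N + 1), ν.real (Metric.closedBall (c n) (z ^ 16)) ≤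
        (N + 1) * (2 * (1 + C) * z ^ 3) := by
      refine (Finset.sum_le_sum fun n _ => hball (c n)).trans ?_
      rw [Finset.sum_const, Finset.card_range, nsmul_eq_mul]
      push_cast
      exact le_rfl
    have h5 : (N : ℝ) + 1 ≤ (H + 1) / z ^ 2 := by
      rw [add_div]
      have : 1 ≤ 1 / z ^ 2 := by
        rw [one_le_div (by positivity)]
        exact pow_le_one₀ hz.le hz1.le
      linarith
    calc (1 : ℝ) ≤ (N + 1) * (2 * (1 + C) * z ^ 3) := hμ1.trans (h2.trans h4)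
      _ ≤ (H + 1) / z ^ 2 * (2 * (1 + C) * z ^ 3) :=
          mul_le_mul_of_nonneg_right h5 (by positivity)
      _ = _ := by field_simp
  have hA : 0 < 2 * (H + 1) * (1 + C) := by positivity
  set A : ℝ := 2 * (H + 1) * (1 + C) with hAdef
  have hA2 : 2 ≤ A := by nlinarith
  have h2 := key (1 / (2 * A)) (by positivity) (by
    rw [div_lt_one (by positivity)]; linarith)
  have h3 : A * (1 / (2 * A)) = 1 / 2 := by field_simp
  rw [h3] at h2
  norm_num at h2

end Pool.Agent.N892.ST
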