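import Pool.Agent.N892.ST.Chr

set_option autoImplicit false

open MeasureTheory ProbabilityTheory Set Filter Topology
open scoped NNReal ENNReal

namespace Pool.Agent.N892.ST

theorem exists_normal (m : Measure ℝ) [IsFiniteMeasure m] :
    ∃ (r : ℝ≥0) (ρ : Measure ℝ), IsProbabilityMeasure ρ ∧ m = r • ρ := by
  let μ : FiniteMeasure ℝ := ⟨m, inferInstance⟩
  refine ⟨μ.mass, (μ.normalize : Measure ℝ), inferInstance, ?_⟩
  have h := congrArg (fun x : FiniteMeasure ℝ => (x : Measure ℝ)) μ.self_eq_mass_smul_normalize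
  simp only [FiniteMeasure.toMeasure_smul, ProbabilityMeasure.toMeasure_comp_toFiniteMeasure_eq_toMeasure] at h
  exact h

theorem norm_exp_sub_one_le {β : ℝ} (h0 : 0 < β) (h1 : β ≤ 1) (θ x : ℝ) :
    ‖Complex.exp (θ * x * Complex.I) - 1‖ ≤ (2 + |θ|) * qq β x := by
  have h2 : (θ : ℂ) * x * Complex.I = Complex.I * ((θ * x : ℝ) : ℂ) := by push_cast; ring
  rw [h2]
  by_cases hx : |x| ≤ 1
  · have h3 : qq β x = |x| ^ β := by
      unfold qq
      exact min_eq_right (Real.rpow_le_one (abs_nonneg _) hx h0.le)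
    have h4 : |x| ≤ |x| ^ β := by
      rcases eq_or_lt_of_le (abs_nonneg x) with hx0 | hx0
      · rw [← hx0, Real.zero_rpow h0.ne']
      · calc |x| = |x| ^ (1 : ℝ) := (Real.rpow_one _).symm
          _ ≤ |x| ^ β := Real.rpow_le_rpow_of_exponent_ge hx0 hx h1
    rw [h3]
    calc ‖Complex.exp (Complex.I * ((θ * x : ℝ) : ℂ)) - 1‖ ≤ ‖θ * x‖ :=
          Real.norm_exp_I_mul_ofReal_sub_one_le
      _ = |θ| * |x| := by rw [Real.norm_eq_abs, abs_mul]
      _ ≤ |θ| * |x| ^ β := mul_le_mul_of_nonneg_left h4 (abs_nonneg _)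
      _ ≤ (2 + |θ|) * |x| ^ β := by
        apply mul_le_mul_of_nonneg_right _ (Real.rpow_nonneg (abs_nonneg _) _)
        linarith
  · have h3 : qq β x = 1 := by
      unfold qq
      exact min_eq_left (Real.one_le_rpow (not_le.1 hx).le h0.le)
    rw [h3, mul_one]
    calc ‖Complex.exp (Complex.I * ((θ * x : ℝ) : ℂ)) - 1‖ ≤
          ‖Complex.exp (Complex.I * ((θ * x : ℝ) : ℂ))‖ + ‖(1 : ℂ)‖ := norm_sub_le _ _
      _ = 2 := by
        rw [mul_comm, Complex.norm_exp_ofReal_mul_I, norm_one]; norm_num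
      _ ≤ 2 + |θ| := by linarith [abs_nonneg θ]

theorem integrable_exp_sub_one {β : ℝ} (h0 : 0 < β) (h1 : β ≤ 1) (ν : Measure ℝ)
    (hν : ∫⁻ x, ENNReal.ofReal (qq β x) ∂ν ≠ ∞) (θ : ℝ) :
    Integrable (fun x : ℝ => Complex.exp (θ * x * Complex.I) - 1) ν := by
  have hq : Integrable (qq β) ν := by
    refine ⟨(measurable_qq β).aestronglyMeasurable, ?_⟩
    rw [hasFiniteIntegral_iff_ofReal (ae_of_all _ (qq_nonneg β))]
    exact lt_top_iff_ne_top.2 hν
  refine (hq.const_mul (2 + |θ|)).mono' (by fun_prop) (ae_of_all _ fun x => ?_)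
  exact norm_exp_sub_one_le h0 h1 θ x

/-- Existence of the pure jump Lévy process with Lévy measure `ν` (finite `β`-variation). -/
theorem exists_levels {β : ℝ} (h0 : 0 < β) (h1 : β ≤ 1) (ν : Measure ℝ) [SFinite ν]
    (hν : ∫⁻ x, ENNReal.ofReal (qq β x) ∂ν ≠ ∞) :
    ∃ (r : ℕ → ℝ≥0) (ρ : ℕ → Measure ℝ), ∃ _ : ∀ k, IsProbabilityMeasure (ρ k),
      (∑' k, r k * ∫⁻ x, ENNReal.ofReal (qq β x) ∂(ρ k) ≠ ∞) ∧
      ∀ θ, Tendsto (fun M => Psi r ρ M θ) atTop
        (𝓝 (∫ x : ℝ, (Complex.exp (θ * x * Complex.I) - 1) ∂ν)) := by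
  choose r ρ hρ hm using fun k => exists_normal (sfiniteSeq ν k)
  have hsum := sum_sfiniteSeq ν
  refine ⟨r, ρ, hρ, ?_, ?_⟩
  · have h2 : ∀ k, r k * ∫⁻ x, ENNReal.ofReal (qq β x) ∂(ρ k) =
        ∫⁻ x, ENNReal.ofReal (qq β x) ∂(sfiniteSeq ν k) := by
      intro k
      conv_rhs => rw [hm k]
      rw [lintegral_smul_measure]
      rfl
    simp_rw [h2]
    rw [← lintegral_sum_measure, hsum]
    exact hν
  · intro θ
    have h3 : ∀ k, (r k : ℂ) * ∫ x : ℝ, (Complex.exp (θ * x * Complex.I) - 1) ∂(ρ k) =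
        ∫ x : ℝ, (Complex.exp (θ * x * Complex.I) - 1) ∂(sfiniteSeq ν k) := by
      intro k
      conv_rhs => rw [hm k]
      rw [integral_smul_nnreal_measure]
      rw [NNReal.smul_def, Complex.real_smul]
    unfold Psi
    simp_rw [h3]
    have hi := integrable_exp_sub_one h0 h1 ν hν θ
    have h4 : HasSum (fun k => ∫ x : ℝ, (Complex.exp (θ * x * Complex.I) - 1) ∂(sfiniteSeq ν k))
        (∫ x : ℝ, (Complex.exp (θ * x * Complex.I) - 1) ∂(Measure.sum (sfiniteSeq ν))) := by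
      apply hasSum_integral_measure
      rw [hsum]
      exact hi
    rw [hsum] at h4
    exact h4.tendsto_sum_nat

end Pool.Agent.N892.ST
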