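import Pool.Agent.N892.ST.Blk

set_option autoImplicit false

open MeasureTheory ProbabilityTheory Set Filter Topology
open scoped NNReal ENNReal

namespace Pool.Agent.N892.ST

open Pool.Agent.W850.HT (unif integral_prod_infinitePi step measurable_step step_re_le cexp_step
  sum_integral_unif intervalIntegrable_indicator integral_indicator_Ioc)

/-- The sample space: (level, time block). -/
abbrev MOm := ℕ × ℕ → MBlk

/-- the increment of the level `k` points in block `b` up to time `t` -/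
noncomputable def yy (ω : MOm) (k b : ℕ) (t : ℝ) : ℝ :=
  ∑ i ∈ Finset.range (ω (k, b)).1,
    if 0 < ((ω (k, b)).2 i).1 ∧ b + ((ω (k, b)).2 i).1 ≤ t then ((ω (k, b)).2 i).2 else 0

/-- total variation of the level `k` points in block `b` -/
noncomputable def aa (ω : MOm) (k b : ℕ) : ℝ :=
  ∑ i ∈ Finset.range (ω (k, b)).1, |((ω (k, b)).2 i).2|

/-- truncated power -/
noncomputable def qq (β x : ℝ) : ℝ := min 1 (|x| ^ β)

theorem qq_nonneg (β x : ℝ) : 0 ≤ qq β x := le_min zero_le_one (Real.rpow_nonneg (abs_nonneg _) _)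

theorem measurable_qq (β : ℝ) : Measurable (qq β) := by
  unfold qq
  exact measurable_const.min ((measurable_id.abs).pow_const β)

/-- `β`-variation of the level `k` points in block `b` -/
noncomputable def hh (β : ℝ) (ω : MOm) (k b : ℕ) : ℝ≥0∞ :=
  ∑ i ∈ Finset.range (ω (k, b)).1, ENNReal.ofReal (qq β ((ω (k, b)).2 i).2)

/-- good set -/
def GG (β : ℝ) : Set MOm := {ω | ∀ b, ∑' k, hh β ω k b ≠ ∞}

theorem abs_yy_le (ω : MOm) (k b : ℕ) (t : ℝ) : |yy ω k b t| ≤ aa ω k b := by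
  unfold yy aa
  refine (Finset.abs_sum_le_sum_abs _ _).trans (Finset.sum_le_sum fun i _ => ?_)
  split_ifs
  · exact le_rfl
  · simp

theorem aa_nonneg (ω : MOm) (k b : ℕ) : 0 ≤ aa ω k b := Finset.sum_nonneg fun _ _ => abs_nonneg _

theorem abs_le_qq {β x : ℝ} (h0 : 0 < β) (h1 : β ≤ 1) (h : qq β x < 1) : |x| ≤ qq β x := by
  have h2 : |x| ^ β < 1 := by
    unfold qq at h
    rcases min_lt_iff.1 h with h | h
    · exact absurd h (lt_irrefl _)
    · exact h
  have h3 : |x| < 1 := by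
    by_contra hc
    exact absurd h2 (not_lt.2 (Real.one_le_rpow (not_lt.1 hc) h0.le))
  unfold qq
  rw [min_eq_right h2.le]
  rcases eq_or_lt_of_le (abs_nonneg x) with hx | hx
  · rw [← hx, Real.zero_rpow h0.ne']
  · calc |x| = |x| ^ (1 : ℝ) := (Real.rpow_one _).symm
      _ ≤ |x| ^ β := Real.rpow_le_rpow_of_exponent_ge hx h3.le h1

theorem measurable_hh (β : ℝ) (k b : ℕ) : Measurable (fun ω => hh β ω k b) := by
  unfold hh
  have h := measurable_campbell (f := fun z : ℝ × ℝ => ENNReal.ofReal (qq β z.2))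
    (((measurable_qq β).comp measurable_snd).ennreal_ofReal)
  exact h.comp (measurable_pi_apply (k, b))

theorem measurableSet_GG (β : ℝ) : MeasurableSet (GG β) := by
  unfold GG
  rw [ofPred_forall]
  refine MeasurableSet.iInter fun b => ?_
  have h : Measurable (fun ω => ∑' k, hh β ω k b) := Measurable.tsum fun k =>
    measurable_hh β k b
  exact (h (measurableSet_singleton ∞)).compl

theorem summable_aa {β : ℝ} (h0 : 0 < β) (h1 : β ≤ 1) {ω : MOm} (hω : ω ∈ GG β) (b : ℕ) :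
    Summable (fun k => aa ω k b) := by
  have hs := hω b
  have h2 : Summable (fun k => (hh β ω k b).toReal) := ENNReal.summable_toReal hs
  have h3 : ∀ᶠ k in atTop, (hh β ω k b).toReal < 1 :=
    h2.tendsto_atTop_zero.eventually_lt_const one_pos
  refine Summable.of_norm_bounded_eventually_nat h2 ?_
  filter_upwards [h3] with k hk
  rw [Real.norm_eq_abs, abs_of_nonneg (aa_nonneg ω k b)]
  have h4 : (hh β ω k b).toReal = ∑ i ∈ Finset.range (ω (k, b)).1, qq β ((ω (k, b)).2 i).2 := by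
    unfold hh
    rw [ENNReal.toReal_sum (fun i _ => ENNReal.ofReal_ne_top)]
    exact Finset.sum_congr rfl fun i _ => ENNReal.toReal_ofReal (qq_nonneg _ _)
  rw [h4] at hk ⊢
  unfold aa
  refine Finset.sum_le_sum fun i hi => ?_
  apply abs_le_qq h0 h1
  exact lt_of_le_of_lt (Finset.single_le_sum (f := fun i => qq β ((ω (k, b)).2 i).2)
    (fun i _ => qq_nonneg _ _) hi) hk

theorem yy_nonpos (ω : MOm) (k b : ℕ) {t : ℝ} (h : t ≤ b) : yy ω k b t = 0 := by
  unfold yy
  apply Finset.sum_eq_zero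
  intro i _
  rw [if_neg]
  rintro ⟨h1, h2⟩
  linarith

theorem yy_right (ω : MOm) (k b : ℕ) (t : ℝ) : ∀ᶠ u in 𝓝[≥] t, yy ω k b u = yy ω k b t := by
  have h1 : ∀ i ∈ Finset.range (ω (k, b)).1, ∀ᶠ u in 𝓝[≥] t,
      (b + ((ω (k, b)).2 i).1 ≤ u ↔ b + ((ω (k, b)).2 i).1 ≤ t) := by
    intro i _
    by_cases hi : b + ((ω (k, b)).2 i).1 ≤ t
    · filter_upwards [self_mem_nhdsWithin] with u hu
      exact ⟨fun _ => hi, fun _ => hi.trans hu⟩
    · have : ∀ᶠ u in 𝓝 t, u < b + ((ω (k, b)).2 i).1 := eventually_lt_nhds (not_le.1 hi)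
      filter_upwards [mem_nhdsWithin_of_mem_nhds this] with u hu
      exact ⟨fun h => absurd h (not_le.2 hu), fun h => absurd h hi⟩
  rw [← Filter.eventually_all_finset] at h1
  filter_upwards [h1] with u hu
  unfold yy
  refine Finset.sum_congr rfl fun i hi => ?_
  simp only [hu i hi]

theorem yy_left (ω : MOm) (k b : ℕ) (t : ℝ) : ∃ c : ℝ, ∀ᶠ u in 𝓝[<] t, yy ω k b u = c := by
  refine ⟨∑ i ∈ Finset.range (ω (k, b)).1, if 0 < ((ω (k, b)).2 i).1 ∧
    b + ((ω (k, b)).2 i).1 < t then ((ω (k, b)).2 i).2 else 0, ?_⟩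
  have h1 : ∀ i ∈ Finset.range (ω (k, b)).1, ∀ᶠ u in 𝓝[<] t,
      (b + ((ω (k, b)).2 i).1 ≤ u ↔ b + ((ω (k, b)).2 i).1 < t) := by
    intro i _
    by_cases hi : b + ((ω (k, b)).2 i).1 < t
    · have : ∀ᶠ u in 𝓝 t, b + ((ω (k, b)).2 i).1 < u := eventually_gt_nhds hi
      filter_upwards [mem_nhdsWithin_of_mem_nhds this] with u hu
      exact ⟨fun _ => hi, fun _ => hu.le⟩
    · filter_upwards [self_mem_nhdsWithin] with u hu
      exact ⟨fun h => absurd (lt_of_le_of_lt h hu) hi, fun h => absurd h hi⟩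
  rw [← Filter.eventually_all_finset] at h1
  filter_upwards [h1] with u hu
  unfold yy
  refine Finset.sum_congr rfl fun i hi => ?_
  simp only [hu i hi]

theorem measurable_yy (k b : ℕ) (t : ℝ) : Measurable (fun ω => yy ω k b t) := by
  have h : Measurable (fun B : MBlk => ∑ i ∈ Finset.range B.1,
      if 0 < (B.2 i).1 ∧ b + (B.2 i).1 ≤ t then (B.2 i).2 else 0) := by
    apply measurable_from_prod_countable_right
    intro n
    simp only
    apply Finset.measurable_sum
    intro i _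
    have hm : MeasurableSet {z : ℝ × ℝ | 0 < z.1 ∧ b + z.1 ≤ t} :=
      (measurableSet_lt measurable_const measurable_fst).inter
        (measurableSet_le (measurable_const.add measurable_fst) measurable_const)
    exact (Measurable.ite hm measurable_snd measurable_const).comp (measurable_pi_apply i)
  exact h.comp (measurable_pi_apply (k, b))

/-- partial sums: levels `< M` -/
noncomputable def psum (M : ℕ) (t : ℝ) (ω : MOm) : ℝ :=
  ∑ b ∈ Finset.range ⌈t⌉₊, ∑ k ∈ Finset.range M, yy ω k b t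

open Classical in
/-- The process. -/
noncomputable def XX (β : ℝ) (t : ℝ) (ω : MOm) : ℝ :=
  if ω ∈ GG β then ∑ b ∈ Finset.range ⌈t⌉₊, ∑' k, yy ω k b t else 0

theorem measurable_psum (M : ℕ) (t : ℝ) : Measurable (psum M t) :=
  Finset.measurable_sum _ fun b _ => Finset.measurable_sum _ fun k _ => measurable_yy k b t

theorem psum_eq (M : ℕ) {t : ℝ} {B : ℕ} (hB : ⌈t⌉₊ ≤ B) (ω : MOm) :
    psum M t ω = ∑ b ∈ Finset.range B, ∑ k ∈ Finset.range M, yy ω k b t := by
  unfold psum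
  refine Finset.sum_subset (Finset.range_subset_range.2 hB) ?_
  intro b _ hb
  rw [Finset.mem_range, not_lt] at hb
  have := Nat.ceil_le.1 hb
  exact Finset.sum_eq_zero fun k _ => yy_nonpos ω k b this

theorem XX_eq {β : ℝ} {t : ℝ} {B : ℕ} (hB : ⌈t⌉₊ ≤ B) {ω : MOm} (hω : ω ∈ GG β) :
    XX β t ω = ∑ b ∈ Finset.range B, ∑' k, yy ω k b t := by
  unfold XX
  rw [if_pos hω]
  refine Finset.sum_subset (Finset.range_subset_range.2 hB) ?_
  intro b _ hb
  rw [Finset.mem_range, not_lt] at hb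
  have := Nat.ceil_le.1 hb
  simp_rw [yy_nonpos ω _ b this]
  simp

theorem summable_yy {β : ℝ} (h0 : 0 < β) (h1 : β ≤ 1) {ω : MOm} (hω : ω ∈ GG β) (b : ℕ) (t : ℝ) :
    Summable (fun k => yy ω k b t) :=
  Summable.of_norm_bounded (summable_aa h0 h1 hω b) fun k => by
    rw [Real.norm_eq_abs]; exact abs_yy_le ω k b t

theorem tendsto_psum {β : ℝ} (h0 : 0 < β) (h1 : β ≤ 1) {ω : MOm} (hω : ω ∈ GG β) (t : ℝ) :
    Tendsto (fun M => psum M t ω) atTop (𝓝 (XX β t ω)) := by
  rw [XX_eq le_rfl hω]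
  unfold psum
  exact tendsto_finsetSum _ fun b _ => (summable_yy h0 h1 hω b t).hasSum.tendsto_sum_nat

theorem measurable_XX {β : ℝ} (h0 : 0 < β) (h1 : β ≤ 1) (t : ℝ) : Measurable (XX β t) := by
  refine measurable_of_tendsto_metrizable
    (f := fun M => (GG β).indicator (psum M t)) (fun M => (measurable_psum M t).indicator
      (measurableSet_GG β)) ?_
  rw [tendsto_pi_nhds]
  intro ω
  by_cases hω : ω ∈ GG β
  · simp only [indicator_of_mem hω]
    exact tendsto_psum h0 h1 hω t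
  · simp only [indicator_of_notMem hω]
    unfold XX
    rw [if_neg hω]
    exact tendsto_const_nhds

theorem XX_zero (β : ℝ) (ω : MOm) : XX β 0 ω = 0 := by
  unfold XX
  simp

theorem XX_right {β : ℝ} (h0 : 0 < β) (h1 : β ≤ 1) (t : ℝ) (ω : MOm) :
    ContinuousWithinAt (fun s => XX β s ω) (Ici t) t := by
  by_cases hω : ω ∈ GG β
  · have h3 : ∀ᶠ u in 𝓝[≥] t, u < t + 1 :=
      mem_nhdsWithin_of_mem_nhds (eventually_lt_nhds (by linarith))
    have h4 : ∀ u : ℝ, u < t + 1 → ⌈u⌉₊ ≤ ⌈t⌉₊ + 1 := by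
      intro u hu
      rw [Nat.ceil_le]
      push_cast
      have := Nat.le_ceil t
      linarith
    unfold ContinuousWithinAt
    simp only
    rw [XX_eq (Nat.le_succ ⌈t⌉₊) hω]
    have h5 : Tendsto (fun s => ∑ b ∈ Finset.range (⌈t⌉₊ + 1), ∑' k, yy ω k b s) (𝓝[≥] t)
        (𝓝 (∑ b ∈ Finset.range (⌈t⌉₊ + 1), ∑' k, yy ω k b t)) := by
      refine tendsto_finsetSum _ fun b _ => ?_
      refine tendsto_tsum_of_dominated_convergence (summable_aa h0 h1 hω b) ?_ ?_
      · intro k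
        exact tendsto_const_nhds.congr' (by
          filter_upwards [yy_right ω k b t] with u hu
          exact hu.symm)
      · exact Eventually.of_forall fun u k => by rw [Real.norm_eq_abs]; exact abs_yy_le ω k b u
    refine h5.congr' ?_
    filter_upwards [h3] with u hu
    exact (XX_eq (h4 u hu) hω).symm
  · have : (fun s => XX β s ω) = fun _ => 0 := by
      ext s; unfold XX; rw [if_neg hω]
    rw [this]
    exact continuousWithinAt_const

theorem XX_left {β : ℝ} (h0 : 0 < β) (h1 : β ≤ 1) (t : ℝ) (ω : MOm) :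
    ∃ l, Tendsto (fun s => XX β s ω) (𝓝[<] t) (𝓝 l) := by
  by_cases hω : ω ∈ GG β
  · choose c hc using fun k b => yy_left ω k b t
    refine ⟨∑ b ∈ Finset.range ⌈t⌉₊, ∑' k, c k b, ?_⟩
    have h5 : Tendsto (fun s => ∑ b ∈ Finset.range ⌈t⌉₊, ∑' k, yy ω k b s) (𝓝[<] t)
        (𝓝 (∑ b ∈ Finset.range ⌈t⌉₊, ∑' k, c k b)) := by
      refine tendsto_finsetSum _ fun b _ => ?_
      refine tendsto_tsum_of_dominated_convergence (summable_aa h0 h1 hω b) ?_ ?_
      · intro k
        exact tendsto_const_nhds.congr' (by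
          filter_upwards [hc k b] with u hu
          exact hu.symm)
      · exact Eventually.of_forall fun u k => by rw [Real.norm_eq_abs]; exact abs_yy_le ω k b u
    refine h5.congr' ?_
    filter_upwards [self_mem_nhdsWithin] with u hu
    exact (XX_eq (Nat.ceil_mono (le_of_lt hu)) hω).symm
  · have : (fun s => XX β s ω) = fun _ => 0 := by
      ext s; unfold XX; rw [if_neg hω]
    rw [this]
    exact ⟨0, tendsto_const_nhds⟩

theorem psum_sub (M : ℕ) {s t : ℝ} (hst : s ≤ t) {B : ℕ} (hB : ⌈t⌉₊ ≤ B) (ω : MOm) :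
    psum M t ω - psum M s ω = ∑ b ∈ Finset.range B, ∑ k ∈ Finset.range M,
      ∑ i ∈ Finset.range (ω (k, b)).1,
      if 0 < ((ω (k, b)).2 i).1 ∧ s < b + ((ω (k, b)).2 i).1 ∧ b + ((ω (k, b)).2 i).1 ≤ t
        then ((ω (k, b)).2 i).2 else 0 := by
  rw [psum_eq M hB ω, psum_eq M ((Nat.ceil_mono hst).trans hB) ω]
  rw [← Finset.sum_sub_distrib]
  refine Finset.sum_congr rfl (fun b _ => ?_)
  rw [← Finset.sum_sub_distrib]
  refine Finset.sum_congr rfl (fun k _ => ?_)
  unfold yy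
  rw [← Finset.sum_sub_distrib]
  refine Finset.sum_congr rfl (fun i _ => ?_)
  by_cases h0 : 0 < ((ω (k, b)).2 i).1
  · by_cases h1 : b + ((ω (k, b)).2 i).1 ≤ s
    · rw [if_pos ⟨h0, by linarith⟩, if_pos ⟨h0, h1⟩, if_neg (by
        rintro ⟨_, h2, _⟩; linarith)]
      ring
    · by_cases h2 : b + ((ω (k, b)).2 i).1 ≤ t
      · rw [if_pos ⟨h0, h2⟩, if_neg (fun h => h1 h.2), if_pos ⟨h0, by linarith, by linarith⟩]
        ring
      · rw [if_neg (fun h => h2 h.2), if_neg (fun h => h1 h.2), if_neg (by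
          rintro ⟨_, _, h3⟩; exact h2 (by linarith))]
        ring
  · rw [if_neg (fun h => h0 h.1), if_neg (fun h => h0 h.1), if_neg (fun h => h0 h.1)]
    ring

end Pool.Agent.N892.ST
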