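import Pool.Agent.N892.ST.Nu

set_option autoImplicit false

open MeasureTheory ProbabilityTheory Set Filter Topology
open scoped NNReal ENNReal

namespace Pool.Agent.N892.ST

theorem integrable_abs {f : ℝ → ℝ} (h : IntegrableOn f (Ioi 0)) :
    Integrable (fun x => f |x|) := by
  have hf : IntegrableOn (fun x => f |x|) (Ioi 0) := by
    refine (integrableOn_congr_fun (fun x hx => ?_) measurableSet_Ioi).2 h
    rw [abs_of_pos hx]
  have int_Iic : IntegrableOn (fun x ↦ f |x|) (Iic 0) := by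
    rw [← Measure.map_neg_eq_self (volume : Measure ℝ)]
    let m : MeasurableEmbedding fun x : ℝ => -x := (Homeomorph.neg ℝ).measurableEmbedding
    rw [m.integrableOn_map_iff]
    simp_rw [Function.comp_def, abs_neg, neg_preimage, neg_Iic, neg_zero]
    exact Iff.mpr integrableOn_Ici_iff_integrableOn_Ioi hf
  rw [← integrableOn_univ, ← Iic_union_Ioi (a := (0 : ℝ))]
  exact int_Iic.union hf

theorem integrable_qw {α β : ℝ} (hα : 0 < α) (hβ : α < β) :
    Integrable (fun x => qq β x * |x| ^ (-1 - α)) := by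
  have h : IntegrableOn (fun x : ℝ => min 1 (x ^ β) * x ^ (-1 - α)) (Ioi 0) := by
    rw [← Ioc_union_Ioi_eq_Ioi (zero_le_one (α := ℝ))]
    refine IntegrableOn.union ?_ ?_
    · have h1 : IntegrableOn (fun x : ℝ => x ^ (β - 1 - α)) (Ioc 0 1) := by
        rw [← intervalIntegrable_iff_integrableOn_Ioc_of_le zero_le_one]
        exact intervalIntegral.intervalIntegrable_rpow' (by linarith)
      refine (integrableOn_congr_fun (fun x hx => ?_) measurableSet_Ioc).2 h1
      have h2 : x ^ β ≤ 1 := Real.rpow_le_one hx.1.le hx.2 (by linarith)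
      rw [min_eq_right h2, ← Real.rpow_add hx.1]
      congr 1
      ring
    · have h1 : IntegrableOn (fun x : ℝ => x ^ (-1 - α)) (Ioi 1) :=
        integrableOn_Ioi_rpow_of_lt (by linarith) one_pos
      refine (integrableOn_congr_fun (fun x hx => ?_) measurableSet_Ioi).2 h1
      have h2 : 1 ≤ x ^ β := Real.one_le_rpow (le_of_lt hx) (by linarith)
      rw [min_eq_left h2, one_mul]
  exact integrable_abs h

/-- `∫ (e^{iθx} - 1) |x|^{-1-α} dx` -/
noncomputable def II (α θ : ℝ) : ℂ :=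
  ∫ x : ℝ, (|x| ^ (-1 - α) : ℝ) • (Complex.exp (θ * x * Complex.I) - 1)

theorem integrable_II {α : ℝ} (hα : 0 < α) (hα1 : α < 1) (θ : ℝ) :
    Integrable (fun x : ℝ => (|x| ^ (-1 - α) : ℝ) • (Complex.exp (θ * x * Complex.I) - 1)) := by
  obtain ⟨β, hβ, hβ1⟩ := exists_between hα1
  have h := (integrable_qw hα hβ).const_mul (2 + |θ|)
  refine h.mono' ?_ (ae_of_all _ fun x => ?_)
  · apply Measurable.aestronglyMeasurable
    have h1 : Measurable (fun x : ℝ => |x| ^ (-1 - α)) := measurable_id.abs.pow_const _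
    have h2 : Measurable (fun x : ℝ => Complex.exp (θ * x * Complex.I) - 1) := by fun_prop
    exact h1.smul h2
  · rw [norm_smul, Real.norm_of_nonneg (Real.rpow_nonneg (abs_nonneg _) _)]
    calc |x| ^ (-1 - α) * ‖Complex.exp (θ * x * Complex.I) - 1‖ ≤
          |x| ^ (-1 - α) * ((2 + |θ|) * qq β x) :=
          mul_le_mul_of_nonneg_left (norm_exp_sub_one_le (hα.trans hβ) hβ1.le θ x)
            (Real.rpow_nonneg (abs_nonneg _) _)
      _ = _ := by ring

theorem II_scale {α : ℝ} (hα : 0 < α) (θ : ℝ) : II α θ = (|θ| ^ α : ℝ) • II α 1 := by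
  rcases eq_or_ne θ 0 with rfl | hθ
  · rw [abs_zero, Real.zero_rpow hα.ne', zero_smul]
    unfold II
    simp
  have hθ' : 0 < |θ| := abs_pos.2 hθ
  have h := Measure.integral_comp_mul_left
    (fun y : ℝ => (|y| ^ (-1 - α) : ℝ) • (Complex.exp ((1 : ℝ) * y * Complex.I) - 1)) θ
  have h2 : ∀ x : ℝ, (|θ * x| ^ (-1 - α) : ℝ) • (Complex.exp ((1 : ℝ) * (θ * x : ℝ) * Complex.I) - 1)
      = (|θ| ^ (-1 - α)) • ((|x| ^ (-1 - α) : ℝ) • (Complex.exp (θ * x * Complex.I) - 1)) := by
    intro x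
    rw [abs_mul, Real.mul_rpow hθ'.le (abs_nonneg _), mul_smul]
    push_cast
    rw [one_mul]
  simp_rw [h2] at h
  rw [integral_smul] at h
  have h3 : II α θ = (|θ| ^ (1 + α)) • ((|θ| ^ (-1 - α)) • II α θ) := by
    rw [smul_smul, ← Real.rpow_add hθ']
    ring_nf
    simp
  rw [h3]
  have h' : (|θ| ^ (-1 - α)) • II α θ = |θ⁻¹| • II α 1 := h
  rw [h', smul_smul]
  congr 1
  rw [abs_inv, Real.rpow_add hθ', Real.rpow_one]
  field_simp

/-- the constant -/
noncomputable def kap (α : ℝ) : ℝ := ∫ x : ℝ, (1 - Real.cos x) * |x| ^ (-1 - α)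

theorem II_one {α : ℝ} (hα : 0 < α) (hα1 : α < 1) : II α 1 = ((-kap α : ℝ) : ℂ) := by
  have h1 : II α (-1) = II α 1 := by
    rw [II_scale hα (-1)]
    simp
  have h2 : (2 : ℂ) * II α 1 = II α 1 + II α (-1) := by rw [h1]; ring
  have h3 : II α 1 + II α (-1) = 2 * ((-kap α : ℝ) : ℂ) := by
    unfold II
    rw [← integral_add (integrable_II hα hα1 1) (integrable_II hα hα1 (-1))]
    unfold kap
    rw [← integral_neg, ← integral_complex_ofReal, ← integral_const_mul]
    congr with x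
    have h4 : Complex.exp (((-1 : ℝ) : ℂ) * x * Complex.I) = Complex.cos x - Complex.sin x * Complex.I := by
      rw [show ((-1 : ℝ) : ℂ) * x * Complex.I = (-(x : ℂ)) * Complex.I by push_cast; ring,
        Complex.exp_mul_I, Complex.cos_neg, Complex.sin_neg]
      ring
    have h5 : Complex.exp (((1 : ℝ) : ℂ) * x * Complex.I) = Complex.cos x + Complex.sin x * Complex.I := by
      rw [show ((1 : ℝ) : ℂ) * x * Complex.I = (x : ℂ) * Complex.I by push_cast; ring,
        Complex.exp_mul_I]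
    rw [h4, h5, Complex.real_smul, Complex.real_smul]
    push_cast
    ring
  rw [h3] at h2
  exact mul_left_cancel₀ two_ne_zero h2

theorem kap_pos {α : ℝ} (hα : 0 < α) (hα1 : α < 1) : 0 < kap α := by
  unfold kap
  have hi : Integrable (fun x : ℝ => (1 - Real.cos x) * |x| ^ (-1 - α)) := by
    have h := (integrable_II hα hα1 1).re
    refine (h.neg).congr (ae_of_all _ fun x => ?_)
    simp only [Pi.neg_apply, RCLike.re_to_complex, Complex.real_smul]
    rw [Complex.re_ofReal_mul, Complex.sub_re, Complex.one_re,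
      show ((1 : ℝ) : ℂ) * x * Complex.I = (x : ℂ) * Complex.I by push_cast; ring,
      Complex.exp_ofReal_mul_I_re]
    ring
  rw [integral_pos_iff_support_of_nonneg (fun x => mul_nonneg (by linarith [Real.cos_le_one x])
    (Real.rpow_nonneg (abs_nonneg _) _)) hi]
  have h1 : Ioo (1 : ℝ) 2 ⊆ Function.support (fun x : ℝ => (1 - Real.cos x) * |x| ^ (-1 - α)) := by
    intro x hx
    rw [Function.mem_support]
    have h2 : Real.cos x < 1 := by
      have := Real.cos_lt_cos_of_nonneg_of_le_pi (x := 0) (y := x) le_rfl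
        (by linarith [hx.2, Real.pi_gt_three]) (by linarith [hx.1])
      rwa [Real.cos_zero] at this
    have h3 : 0 < |x| ^ (-1 - α) := Real.rpow_pos_of_pos (abs_pos.2 (by linarith [hx.1])) _
    exact (mul_pos (by linarith) h3).ne'
  refine lt_of_lt_of_le ?_ (measure_mono h1)
  simp

/-- The Lévy measure of the symmetric stable process. -/
noncomputable def nuS (α : ℝ) : Measure ℝ :=
  volume.withDensity (fun x => ENNReal.ofReal ((kap α)⁻¹ * |x| ^ (-1 - α)))

instance (α : ℝ) : SFinite (nuS α) := by unfold nuS; infer_instance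

theorem measurable_dens (α : ℝ) :
    Measurable (fun x : ℝ => ENNReal.ofReal ((kap α)⁻¹ * |x| ^ (-1 - α))) :=
  (measurable_const.mul (measurable_id.abs.pow_const _)).ennreal_ofReal

theorem nuS_finite {α β : ℝ} (hα : 0 < α) (hα1 : α < 1) (hβ : α < β) :
    ∫⁻ x, ENNReal.ofReal (qq β x) ∂(nuS α) ≠ ∞ := by
  unfold nuS
  rw [lintegral_withDensity_eq_lintegral_mul _ (measurable_dens α)
    (measurable_qq β).ennreal_ofReal]
  have h := (integrable_qw hα hβ).const_mul (kap α)⁻¹
  have h2 : ∀ x : ℝ, 0 ≤ (kap α)⁻¹ * (qq β x * |x| ^ (-1 - α)) := fun x =>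
    mul_nonneg (inv_nonneg.2 (kap_pos hα hα1).le)
      (mul_nonneg (qq_nonneg _ _) (Real.rpow_nonneg (abs_nonneg _) _))
  have h3 := (hasFiniteIntegral_iff_ofReal (ae_of_all _ h2)).1 h.2
  refine ne_top_of_le_ne_top h3.ne (lintegral_mono fun x => ?_)
  simp only [Pi.mul_apply]
  rw [← ENNReal.ofReal_mul (mul_nonneg (inv_nonneg.2 (kap_pos hα hα1).le)
    (Real.rpow_nonneg (abs_nonneg _) _))]
  apply ENNReal.ofReal_le_ofReal
  apply le_of_eq
  ring

theorem nuS_exponent {α : ℝ} (hα : 0 < α) (hα1 : α < 1) (θ : ℝ) :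
    ∫ x : ℝ, (Complex.exp (θ * x * Complex.I) - 1) ∂(nuS α) = ((-|θ| ^ α : ℝ) : ℂ) := by
  unfold nuS
  rw [integral_withDensity_eq_integral_toReal_smul (measurable_dens α)
    (ae_of_all _ fun x => ENNReal.ofReal_lt_top)]
  have h1 : ∀ x : ℝ, (ENNReal.ofReal ((kap α)⁻¹ * |x| ^ (-1 - α))).toReal •
      (Complex.exp (θ * x * Complex.I) - 1) = (kap α)⁻¹ •
        ((|x| ^ (-1 - α) : ℝ) • (Complex.exp (θ * x * Complex.I) - 1)) := by
    intro x
    rw [ENNReal.toReal_ofReal (mul_nonneg (inv_nonneg.2 (kap_pos hα hα1).le)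
      (Real.rpow_nonneg (abs_nonneg _) _)), mul_smul]
  simp_rw [h1]
  rw [integral_smul]
  have h2 := II_scale hα θ
  rw [II_one hα hα1] at h2
  unfold II at h2
  rw [h2, Complex.real_smul, Complex.real_smul]
  have := (kap_pos hα hα1).ne'
  push_cast
  have h3 : (kap α : ℂ) ≠ 0 := by exact_mod_cast this
  field_simp

end Pool.Agent.N892.ST
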